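import Pool.Agent.N926.Sup2.K

set_option autoImplicit false

namespace Pool.Agent.Results.MP_c42a9c_nt.TwoSums

open Finset

/-- the rising factorial `(x)_k = x (x+1) ⋯ (x+k-1)` -/
def rf (x : ℚ) (k : ℕ) : ℚ := ∏ i ∈ range k, (x + (i : ℚ))

/-- `A_r(p) = ∑_{k=0}^{(p^r-1)/2} (4k+1) (1/2)_k^4 / k!^4` -/
def A (p r : ℕ) : ℚ :=
  ∑ k ∈ range ((p ^ r - 1) / 2 + 1), (4 * (k : ℚ) + 1) * rf (1 / 2) k ^ 4 / (k.factorial : ℚ) ^ 4

/-- `B_r(p) = ∑_{k=0}^{p^r-1} (3k+1) (1/2)_k^3 / k!^3 * 2^(2k)` -/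
def B (p r : ℕ) : ℚ :=
  ∑ k ∈ range (p ^ r), (3 * (k : ℚ) + 1) * rf (1 / 2) k ^ 3 / (k.factorial : ℚ) ^ 3 * 2 ^ (2 * k)

/-- `a ≡ b (mod p^m)`: `a - b = p^m u` with `u` a rational whose denominator is prime to `p` -/
def Congr (p m : ℕ) (a b : ℚ) : Prop := ∃ u : ℚ, ¬ p ∣ u.den ∧ a - b = (p : ℚ) ^ m * u

open Pool.Agent.N926.Sup2 Pool.Agent.N926.Sup in
/-- for every odd prime `p` (including `3`) and every `r ≥ 1`, `A_r(p) ≡ B_r(p) (mod p^{r+4})` -/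
theorem result : ∀ p : ℕ, p.Prime → p ≠ 2 → ∀ r : ℕ, 1 ≤ r → Congr p (r + 4) (A p r) (B p r) := by
  intro p hp h2 r hr
  haveI : Fact p.Prime := ⟨hp⟩
  obtain ⟨h, hh⟩ := hp.odd_of_ne_two h2
  obtain ⟨s, rfl⟩ : ∃ s, r = s + 1 := ⟨r - 1, by omega⟩
  obtain ⟨M, hM⟩ : Odd (p ^ (s + 1)) := (hp.odd_of_ne_two h2).pow
  have e1 : (p ^ (s + 1) - 1) / 2 = M := by omega
  have hA : A p (s + 1) = Pool.Agent.N926.Sup2.A M := by
    unfold A Pool.Agent.N926.Sup2.A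
    rw [e1]
    refine sum_congr rfl fun k _ => ?_
    rw [t_rf, div_pow]
    unfold rf
    ring
  have hB : B p (s + 1) = Pool.Agent.N926.Sup2.B (2 * M + 1) := by
    unfold B Pool.Agent.N926.Sup2.B
    rw [hM]
    refine sum_congr rfl fun k _ => ?_
    rw [t_rf, div_pow, pow_mul]
    unfold rf
    norm_num
    ring
  rw [hA, hB]
  have h4 := mul_P (p := p) (cast_P hM) (AB (p := p) h2 hM hh)
  have hP : (2 * (M : ℚ) + 1) ≠ 0 := by positivity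
  have e2 : Pool.Agent.N926.Sup2.A M - (2 * (M : ℚ) + 1) *
      (Pool.Agent.N926.Sup2.B (2 * M + 1) / (2 * (M : ℚ) + 1)) =
      Pool.Agent.N926.Sup2.A M - Pool.Agent.N926.Sup2.B (2 * M + 1) := by
    field_simp
  rw [e2] at h4
  exact congr_of_Dv h4

end Pool.Agent.Results.MP_c42a9c_nt.TwoSums
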